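import Pool.Agent.V11313.CT.Box

set_option autoImplicit false

/-!
# MP_ac5134: the Kakeya inequality in tube form for translates which meet a curve of finite order

Work in `ℝ^n = ℝ^d × ℝ`, `n = d + 1 ≥ 3`, with its Euclidean norm (`Space d`), and let `P` be the
paraboloid `{(ω, |ω|²)}`, `|ω| ≤ 1`.  The box dual to the cap at `ω` is `box N (nor ω) f 0`: its long
side `N²` is in the direction of the unit normal `nor ω = (-2ω, 1)/√(1+4|ω|²)` and its other sides `N`
are in the directions of an arbitrary orthonormal frame `f` of the orthogonal complement.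

Let `γ : ℝ → ℝ^n` be a continuous curve of order at most `M`: for every direction `ν ≠ 0` almost
every hyperplane orthogonal to `ν` meets the curve at most `M` times (arcs of real algebraic curves,
convex curves, polygons, lines, ...).  No smoothness, no curvature and no boundedness is assumed.
The boxes are translated in such a way that each of them, enlarged by the factor `2 A`, contains a
point of the curve; the place on the curve and the position of the box relative to this place are
arbitrary functions of `ω`.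

For all these translates the conjectured comparison with the centred family holds for every `p` in
`[1, ∞]`, with a power of `log N` in place of `N^ε`, and uniformly over all curves of order `M`.
-/

open MeasureTheory Set ENNReal NNReal

namespace Pool.Agent.Results.MP_ac5134_an.CurveTranslates

/-- Euclidean space `ℝ^d`. -/
abbrev Vec (d : ℕ) : Type := EuclideanSpace ℝ (Fin d)

/-- Euclidean space `ℝ^{d+1}`, written as `ℝ^d × ℝ` with the Euclidean norm. -/
abbrev Space (d : ℕ) : Type := WithLp 2 (Vec d × ℝ)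

/-- The unit vector `(v, 1)/√(1+|v|²)`. -/
noncomputable def dir {d : ℕ} (v : Vec d) : Space d :=
  (√(1 + ‖v‖ ^ 2))⁻¹ • WithLp.toLp 2 (v, (1:ℝ))

/-- The unit normal `(-2ω, 1)/√(1+4|ω|²)` of the paraboloid at the point `(ω, |ω|²)`. -/
noncomputable def nor {d : ℕ} (ω : Vec d) : Space d := dir (-(2 : ℝ) • ω)

/-- The box with centre `a`, side `N²` in the direction `e` and sides `N` in the directions `f j`. -/
def box {d : ℕ} (N : ℝ) (e : Space d) (f : Fin d → Space d) (a : Space d) : Set (Space d) :=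
  {y | |inner ℝ e (y - a)| ≤ N ^ 2 / 2 ∧ ∀ j, |inner ℝ (f j) (y - a)| ≤ N / 2}

/-- The caps have centres `ω i` in the closed unit ball, `σ/N`-separated and at least `κ N^d` in
number, and `f i` is an orthonormal frame of the orthogonal complement of the normal at `ω i`. -/
def Caps {d : ℕ} {ι : Type} [Fintype ι] (σ κ N : ℝ) (ω : ι → Vec d) (f : ι → Fin d → Space d) : Prop :=
  (∀ i, ‖ω i‖ ≤ 1) ∧ (∀ i j, i ≠ j → σ / N ≤ ‖ω i - ω j‖) ∧ κ * N ^ d ≤ (Fintype.card ι : ℝ) ∧
    ∀ i, Orthonormal ℝ (Fin.cons (nor (ω i)) (f i) : Fin (d + 1) → Space d)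

/-- The sum of the indicators of the boxes of the caps with centres `a i`. -/
noncomputable def boxSum {d : ℕ} {ι : Type} [Fintype ι] (N : ℝ) (ω : ι → Vec d)
    (f : ι → Fin d → Space d) (a : ι → Space d) (y : Space d) : ℝ :=
  ∑ i, (box N (nor (ω i)) (f i) (a i)).indicator (fun _ => (1 : ℝ)) y

/-- The curve `γ` is of order at most `M`: for every direction `ν ≠ 0`, almost every hyperplane
orthogonal to `ν` meets the curve at most `M` times. -/
def OrderLE {d : ℕ} (M : ℕ) (γ : ℝ → Space d) : Prop :=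
  ∀ ν : Space d, ν ≠ 0 → ∀ᵐ c : ℝ, {u : ℝ | inner ℝ ν (γ u) = c}.encard ≤ M

/-- The box with centre `a`, enlarged by the factor `2 A`, contains a point of the curve `γ`. -/
def Meets {d : ℕ} (A N : ℝ) (e : Space d) (f : Fin d → Space d) (a : Space d) (γ : ℝ → Space d) :
    Prop :=
  ∃ u : ℝ, |inner ℝ e (γ u - a)| ≤ A * N ^ 2 ∧ ∀ j, |inner ℝ (f j) (γ u - a)| ≤ A * N

/-- **The Kakeya inequality in tube form, for all `p` in `[1, ∞]`, for translates which meet a curve
of finite order.** -/
theorem result (d : ℕ) (hd : 2 ≤ d) (σ κ A : ℝ) (hσ : 0 < σ) (hσ1 : σ ≤ 1) (hκ : 0 < κ) :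
    ∃ C : ℝ, 0 < C ∧ ∀ (M : ℕ) (γ : ℝ → Space d), Continuous γ → OrderLE M γ →
      ∀ N : ℝ, 1 ≤ N → ∀ (ι : Type) [Fintype ι] (ω : ι → Vec d) (f : ι → Fin d → Space d)
        (a : ι → Space d), Caps σ κ N ω f → (∀ i, Meets A N (nor (ω i)) (f i) (a i) γ) →
        ∀ p : ℝ≥0∞, 1 ≤ p →
          eLpNorm (boxSum N ω f a) p volume ≤
            ENNReal.ofReal (C * (((M + 1) * (1 + Real.log (M + 1)) ^ 2 *
                (1 + Real.log N) ^ (d + 3)) ^ (1 / (d : ℝ))) ^
              min ((d : ℝ) * (1 - 1 / p.toReal)) (1 / p.toReal)) *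
            eLpNorm (boxSum N ω f 0) p volume := by
  obtain ⟨E, hE0, hE⟩ := Pool.Agent.V11313.CT.curve_int hd hσ hσ1 (A := |A|) (abs_nonneg A)
  obtain ⟨D, hD1, hD⟩ := Pool.Agent.W772.compare_tri d (by omega) κ E hκ hE0
  refine ⟨D, by linarith, ?_⟩
  intro M γ hγ hord N hN ι _ ω f a hcaps hmeets p hp
  obtain ⟨hω, hsep, hcard, hf⟩ := hcaps
  have hN0 : 0 < N := by linarith
  have hne : Nonempty ι := by
    have h1 : 0 < κ * N ^ d := by positivity
    have h2 : (0 : ℝ) < (Fintype.card ι : ℝ) := by linarith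
    have h3 : 0 < Fintype.card ι := by exact_mod_cast h2
    exact Fintype.card_pos_iff.1 h3
  have hlogN : 0 ≤ Real.log N := Real.log_nonneg hN
  have hM0 : (0 : ℝ) ≤ M := Nat.cast_nonneg M
  have hlogM : 0 ≤ Real.log ((M : ℝ) + 1) := Real.log_nonneg (by linarith)
  have hY : (1 : ℝ) ≤ ((M + 1) * (1 + Real.log (M + 1)) ^ 2 *
      (1 + Real.log N) ^ (d + 3)) ^ (1 / (d : ℝ)) := by
    apply Real.one_le_rpow _ (by positivity)
    have h1 : (1 : ℝ) ≤ (1 + Real.log ((M : ℝ) + 1)) ^ 2 := one_le_pow₀ (by linarith)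
    have h2 : (1 : ℝ) ≤ (1 + Real.log N) ^ (d + 3) := one_le_pow₀ (by linarith)
    have h3 : (1 : ℝ) ≤ ((M : ℝ) + 1) * (1 + Real.log ((M : ℝ) + 1)) ^ 2 := by nlinarith
    nlinarith
  exact hD hN hY ω f hf _ hcard (hE M γ hγ hord N hN ι ω f a hω hsep hf (fun i => by
    obtain ⟨u, hu1, hu2⟩ := hmeets i
    refine ⟨u, hu1.trans ?_, fun j => (hu2 j).trans ?_⟩
    · exact mul_le_mul_of_nonneg_right (le_abs_self A) (by positivity)
    · exact mul_le_mul_of_nonneg_right (le_abs_self A) hN0.le)) p hp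

end Pool.Agent.Results.MP_ac5134_an.CurveTranslates
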