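import Mathlib
import Pool.Agent.V114.KakCx.Box

/-!
# The Kakeya inequality in tube form tested against functions with few shapes

`P` is the paraboloid `{(|x|², x)}`, `|x| ≤ 1`, in `ℝ^(d+1)` (the first coordinate is the vertical
one).  The box dual to the cap at `x` is `box N (nor x) f 0`: its long side `N²` is in the direction of
the unit normal `nor x = (1, -2x)/√(1+4|x|²)` and its other sides `N` are in the directions of an
orthonormal frame `f` of the orthogonal complement.

By duality the inequality of the problem at the critical exponent `p = (d+1)/d` says that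
`∫ (Σ T_θ) g ≤ C N^ε ‖Σ T_{θ,0}‖_p ‖g‖_{d+1}` for all `g ≥ 0`.  It is proved here for all functions `g`
with few shapes: for all but `C N^(d-c)` of the caps and all translates, with the loss `C N^ε P^Q`,
if `g` has at most `P` different shapes in the cells of side `N² b^(-k)`, for each `k` with
`b^k ≤ b N`.
-/

open MeasureTheory Set Metric
open scoped ENNReal

namespace Pool.Agent.Results.MP_ac5134_an.FewShapes

/-- Euclidean space `ℝ^n`. -/
abbrev Space (n : ℕ) : Type := EuclideanSpace ℝ (Fin n)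

/-- The unit normal `(1, -2x)/√(1+4|x|²)` of the paraboloid at the point `(|x|², x)`. -/
noncomputable def nor {d : ℕ} (x : Space d) : Space (d + 1) :=
  (√(1 + 4 * ‖x‖ ^ 2))⁻¹ • WithLp.toLp 2 (Fin.cons 1 (fun j => -2 * x j) : Fin (d + 1) → ℝ)

/-- The box with centre `a`, side `N²` in the direction `e` and sides `N` in the directions `f j`. -/
def box {d : ℕ} (N : ℝ) (e : Space (d + 1)) (f : Fin d → Space (d + 1)) (a : Space (d + 1)) :
    Set (Space (d + 1)) :=
  {y | |inner ℝ e (y - a)| ≤ N ^ 2 / 2 ∧ ∀ j, |inner ℝ (f j) (y - a)| ≤ N / 2}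

/-- The caps have centres `ω i` in the closed unit ball, which are `σ/N`-separated, and `f i` is an
orthonormal frame of the orthogonal complement of the normal at `ω i`. -/
def Caps {d : ℕ} {ι : Type} (σ N : ℝ) (ω : ι → Space d) (f : ι → Fin d → Space (d + 1)) : Prop :=
  (∀ i, ‖ω i‖ ≤ 1) ∧ (∀ i j, i ≠ j → σ / N ≤ ‖ω i - ω j‖) ∧
    ∀ i, Orthonormal ℝ (Fin.cons (nor (ω i)) (f i) : Fin (d + 1) → Space (d + 1))

/-- The sum of the indicators of the boxes of the caps with centres `a i`. -/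
noncomputable def boxSum {d : ℕ} {ι : Type} [Fintype ι] (N : ℝ) (ω : ι → Space d)
    (f : ι → Fin d → Space (d + 1)) (a : ι → Space (d + 1)) (y : Space (d + 1)) : ℝ :=
  ∑ i, (box N (nor (ω i)) (f i) (a i)).indicator (fun _ => (1 : ℝ)) y

/-- The part of `g` in the cell `∏ [N² z i / b ^ k, N² (z i + 1) / b ^ k)`, carried to the unit cube
`[0, 1) ^ n` (and zero outside). -/
noncomputable def shape {n : ℕ} (g : Space n → ℝ≥0∞) (N : ℝ) (b k : ℕ) (z : Fin n → ℤ) :
    (Fin n → ℝ) → ℝ≥0∞ :=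
  fun u => open Classical in
    if ∀ i, 0 ≤ u i ∧ u i < 1 then
      g (WithLp.toLp 2 fun i => N ^ 2 * (((z i : ℝ) + u i) / (b : ℝ) ^ k)) else 0

open Pool.Agent.V114.KakCx

lemma nor_eq {d : ℕ} (x : Space d) : nor x = nrm (WithLp.ofLp x) := by
  unfold nor nrm
  rw [EuclideanSpace.norm_sq_eq]
  simp [sq_abs]

lemma lintegral_scale {n : ℕ} {r : ℝ} (hr : 0 < r) {h : Space n → ℝ≥0∞} (hh : Measurable h) :
    ∫⁻ y, h y = ENNReal.ofReal (r ^ n) * ∫⁻ y, h (r • y) := by
  have h1 : ∫⁻ y, h (r • y) = ENNReal.ofReal (|(r ^ n)⁻¹|) * ∫⁻ y, h y := by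
    have h2 := Measure.map_addHaar_smul (volume : Measure (Space n)) hr.ne'
    rw [finrank_euclideanSpace, Fintype.card_fin] at h2
    have h3 : ∫⁻ y, h (r • y) = ∫⁻ y, h y ∂(Measure.map (r • ·) (volume : Measure (Space n))) := by
      rw [lintegral_map hh (measurable_const_smul r)]
    rw [h3, h2, lintegral_smul_measure, smul_eq_mul]
  have hrn : 0 < r ^ n := by positivity
  rw [h1, ← mul_assoc, ← ENNReal.ofReal_mul hrn.le, abs_of_pos (by positivity),
    mul_inv_cancel₀ hrn.ne', ENNReal.ofReal_one, one_mul]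

lemma card_le_norm (d : ℕ) (hd : 1 ≤ d) : ∃ C : ℝ, 0 < C ∧ ∀ N : ℝ, 1 ≤ N → ∀ (ι : Type) [Fintype ι]
    (σ : ℝ) (ω : ι → Space d) (f : ι → Fin d → Space (d + 1)), Caps σ N ω f →
    (Fintype.card ι : ℝ≥0∞) * ENNReal.ofReal (N ^ d) ≤
      ENNReal.ofReal C * eLpNorm (boxSum N ω f 0) (ENNReal.ofReal (((d : ℝ) + 1) / d)) volume := by
  set V : ℝ≥0∞ := volume (ball (0 : Space (d + 1)) 1) with hV
  have hV0 : V ≠ 0 := (measure_ball_pos volume _ one_pos).ne'
  have hVt : V ≠ ∞ := measure_ball_lt_top.ne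
  have hd0 : (0 : ℝ) < d := by exact_mod_cast hd
  set q : ℝ := d / ((d : ℝ) + 1) with hq
  have hq0 : 0 < q := by positivity
  have hVq0 : V ^ q ≠ 0 := by
    rw [← pos_iff_ne_zero]
    exact ENNReal.rpow_pos (pos_iff_ne_zero.2 hV0) hVt
  have hVqt : V ^ q ≠ ∞ := (ENNReal.rpow_lt_top_of_nonneg hq0.le hVt).ne
  set c : ℝ := (V ^ q).toReal with hc
  have hc0 : 0 < c := ENNReal.toReal_pos hVq0 hVqt
  refine ⟨2 ^ d * c⁻¹, by positivity, ?_⟩
  intro N hN ι _ σ ω f hcaps
  have hN0 : 0 < N := by linarith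
  obtain ⟨hω, hsep, hf⟩ := hcaps
  have hp0 : ENNReal.ofReal (((d : ℝ) + 1) / d) ≠ 0 := by
    rw [← pos_iff_ne_zero, ENNReal.ofReal_pos]; positivity
  have hlow : (Fintype.card ι : ℝ≥0∞) * volume (ball (0 : Space (d + 1)) (N / 2)) ^ q ≤
      eLpNorm (boxSum N ω f 0) (ENNReal.ofReal (((d : ℝ) + 1) / d)) volume := by
    have h1 := eLpNorm_indicator_const (μ := volume) (s := ball (0 : Space (d + 1)) (N / 2))
      (c := (Fintype.card ι : ℝ)) (p := ENNReal.ofReal (((d : ℝ) + 1) / d)) measurableSet_ball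
      hp0 ENNReal.ofReal_ne_top
    have h2 : 1 / (ENNReal.ofReal (((d : ℝ) + 1) / d)).toReal = q := by
      rw [ENNReal.toReal_ofReal (by positivity), hq, one_div_div]
    rw [h2] at h1
    have h3 : ‖(Fintype.card ι : ℝ)‖ₑ = (Fintype.card ι : ℝ≥0∞) := by
      rw [Real.enorm_of_nonneg (by positivity), ENNReal.ofReal_natCast]
    rw [h3] at h1
    rw [← h1]
    apply eLpNorm_mono
    intro y
    have hnn : 0 ≤ boxSum N ω f 0 y := by
      unfold boxSum
      exact Finset.sum_nonneg (fun i _ => Set.indicator_nonneg (fun _ _ => zero_le_one) _)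
    by_cases hy : y ∈ ball (0 : Space (d + 1)) (N / 2)
    · rw [Set.indicator_of_mem hy]
      have h4 : boxSum N ω f 0 y = Fintype.card ι := by
        unfold boxSum
        have h5 : ∀ i : ι, (box N (nor (ω i)) (f i) ((0 : ι → Space (d + 1)) i)).indicator
            (fun _ => (1 : ℝ)) y = 1 := by
          intro i
          rw [Set.indicator_of_mem]
          rw [mem_ball_zero_iff] at hy
          have hin : ∀ (q : Space (d + 1)), ‖q‖ = 1 → |(inner ℝ q (y - 0) : ℝ)| ≤ N / 2 := by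
            intro q hq1
            have := abs_real_inner_le_norm q (y - 0)
            rw [hq1, one_mul, sub_zero] at this
            rw [sub_zero]
            linarith
          refine ⟨?_, fun j => ?_⟩
          · refine (hin _ ?_).trans (by nlinarith)
            have := (hf i).1 0
            simpa using this
          · apply hin
            have := (hf i).1 j.succ
            simpa using this
        rw [Finset.sum_congr rfl (fun i _ => h5 i)]
        simp
      rw [h4]
    · rw [Set.indicator_of_notMem hy, norm_zero]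
      exact norm_nonneg _
  have hball : volume (ball (0 : Space (d + 1)) (N / 2)) = ENNReal.ofReal ((N / 2) ^ (d + 1)) * V := by
    rw [Measure.addHaar_ball volume _ (by positivity), finrank_euclideanSpace, Fintype.card_fin]
  have hpow : volume (ball (0 : Space (d + 1)) (N / 2)) ^ q = ENNReal.ofReal ((N / 2) ^ d) * V ^ q := by
    rw [hball, ENNReal.mul_rpow_of_nonneg _ _ hq0.le, ENNReal.ofReal_rpow_of_nonneg (by positivity) hq0.le]
    congr 2
    rw [← Real.rpow_natCast, ← Real.rpow_mul (by positivity), ← Real.rpow_natCast]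
    congr 1
    rw [hq]
    push_cast
    field_simp
  rw [hpow] at hlow
  have hVc : V ^ q = ENNReal.ofReal c := (ENNReal.ofReal_toReal hVqt).symm
  calc (Fintype.card ι : ℝ≥0∞) * ENNReal.ofReal (N ^ d)
      = ENNReal.ofReal (2 ^ d * c⁻¹) *
        ((Fintype.card ι : ℝ≥0∞) * (ENNReal.ofReal ((N / 2) ^ d) * V ^ q)) := by
        rw [hVc]
        have h1 : ENNReal.ofReal (N ^ d) =
            ENNReal.ofReal (2 ^ d * c⁻¹) * (ENNReal.ofReal ((N / 2) ^ d) * ENNReal.ofReal c) := by
          rw [← ENNReal.ofReal_mul (by positivity), ← ENNReal.ofReal_mul (by positivity)]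
          congr 1
          rw [div_pow]
          field_simp
        rw [h1]
        ring
    _ ≤ _ := by gcongr

/-- **The Kakeya inequality in tube form, tested against functions with few shapes.** -/
theorem result (d : ℕ) (hd : 1 ≤ d) (b : ℕ) (hb : 2 ≤ b) (ε σ : ℝ) (hε : 0 < ε) (hσ : 0 < σ) :
    ∃ (Q : ℕ) (C c : ℝ), 0 < C ∧ 0 < c ∧ ∀ N : ℝ, 1 ≤ N → ∀ (ι : Type) [Fintype ι] (ω : ι → Space d)
      (f : ι → Fin d → Space (d + 1)), Caps σ N ω f →
      ∃ Good : Finset ι, (Fintype.card ι : ℝ) ≤ Good.card + C * N ^ ((d : ℝ) - c) ∧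
        ∀ (a : ι → Space (d + 1)) (g : Space (d + 1) → ℝ≥0∞), Measurable g → ∀ P : ℕ,
          (∀ k : ℕ, (b : ℝ) ^ k ≤ b * N → (Set.range (shape g N b k)).encard ≤ P) →
          ∑ i ∈ Good, ∫⁻ y in box N (nor (ω i)) (f i) (a i), g y ≤
            ENNReal.ofReal (C * N ^ ε) * (P : ℝ≥0∞) ^ Q *
              eLpNorm (boxSum N ω f 0) (ENNReal.ofReal (((d : ℝ) + 1) / d)) volume *
              (∫⁻ y, g y ^ (d + 1)) ^ (1 / ((d : ℝ) + 1)) := by
  classical
  have hb0 : 0 < b := by omega
  have hbr : (0 : ℝ) < b := by exact_mod_cast hb0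
  have hbr1 : (1 : ℝ) < b := by exact_mod_cast (by omega : 1 < b)
  have hd0 : (0 : ℝ) < d := by exact_mod_cast hd
  obtain ⟨Q, C0, c, hC0, hc, hcore⟩ := box_core hd hb hε
  obtain ⟨C2, hC2, hcard⟩ := card_le_norm d hd
  set σ' : ℝ := min σ 1 with hσ'
  have hσ'0 : 0 < σ' := lt_min hσ one_pos
  set C3 : ℝ := (d / (2 * σ')) ^ d with hC3
  have hC30 : 0 < C3 := by positivity
  refine ⟨Q, C3 + C0 * (b : ℝ) ^ ε * C2, c, by positivity, hc, ?_⟩
  intro N hN ι _ ω f hcaps
  have hN0 : 0 < N := by linarith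
  have hcaps' := hcaps
  obtain ⟨hω, hsep, hf⟩ := hcaps
  obtain ⟨M, hM1, hM2⟩ : ∃ M : ℕ, N ≤ (b : ℝ) ^ M ∧ (b : ℝ) ^ M ≤ b * N := by
    obtain ⟨k, hk1, hk2⟩ := exists_nat_pow_near hN hbr1
    refine ⟨k + 1, hk2.le, ?_⟩
    rw [pow_succ]
    nlinarith
  have hbM : (0 : ℝ) < (b : ℝ) ^ M := by positivity
  obtain ⟨B, hB, hvB, hmain⟩ := hcore M
  set ρ : ℝ := σ' / (d * N) with hρ
  have hρ0 : 0 < ρ := by positivity
  have hρN : ρ ≤ 1 / N := by
    rw [hρ, div_le_div_iff₀ (by positivity) hN0]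
    have h1 : σ' ≤ 1 := min_le_right _ _
    have h2 : (1 : ℝ) ≤ d := by exact_mod_cast hd
    nlinarith
  set v : ι → (Fin d → ℝ) := fun i j => -2 * ω i j with hv
  have hvsep : ∀ i j, i ≠ j → 2 * ρ ≤ dist (v i) (v j) := by
    intro i j hij
    obtain ⟨m, hm⟩ : ∃ m, d = m + 1 := ⟨d - 1, by omega⟩
    subst hm
    have h1 := hsep i j hij
    have h2 : ‖ω i - ω j‖ ≤ ((m : ℝ) + 1) * (dist (v i) (v j) / 2) := by
      apply norm_le_of_coord _ (by positivity)
      intro l
      have h3 : dist (v i l) (v j l) ≤ dist (v i) (v j) := dist_le_pi_dist _ _ l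
      rw [Real.dist_eq] at h3
      have h4 : v i l - v j l = (-2) * ((ω i - ω j : Space (m + 1)) l) := by
        simp only [hv, PiLp.sub_apply]
        ring
      rw [h4, abs_mul] at h3
      norm_num at h3
      simp only [PiLp.sub_apply]
      linarith
    have h5 : σ' ≤ σ := min_le_left _ _
    have h6 : σ' / N ≤ ((m : ℝ) + 1) * (dist (v i) (v j) / 2) :=
      (div_le_div_of_nonneg_right h5 hN0.le).trans (h1.trans h2)
    rw [hρ]
    push_cast
    rw [div_le_iff₀ hN0] at h6
    rw [← mul_div_assoc, div_le_iff₀ (by positivity)]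
    nlinarith
  set Bad : Finset ι := Finset.univ.filter (fun i => ball (v i) ρ ⊆ B) with hBad
  refine ⟨Badᶜ, ?_, ?_⟩
  · have h1 := bad_count hd hρ0 hvsep Bad (B := B) (by
      intro i hi
      rw [hBad, Finset.mem_filter] at hi
      exact hi.2)
    have h2 := h1.trans hvB
    rw [← ENNReal.ofReal_natCast, ← ENNReal.ofReal_mul (by positivity),
      ENNReal.ofReal_le_ofReal_iff (by positivity)] at h2
    have h3 : (b : ℝ) ^ (-(c * M)) ≤ N ^ (-c) := by
      have : (b : ℝ) ^ (-(c * M)) = ((b : ℝ) ^ M) ^ (-c) := by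
        rw [← Real.rpow_natCast, ← Real.rpow_mul hbr.le]
        ring_nf
      rw [this]
      exact Real.rpow_le_rpow_of_nonpos hN0 hM1 (by linarith)
    have h4 : (2 * ρ) ^ d = (C3 * N ^ d)⁻¹ := by
      rw [hC3, ← mul_pow, ← inv_pow]
      congr 1
      rw [hρ]
      field_simp
    rw [h4] at h2
    have h5 : (Bad.card : ℝ) ≤ C3 * N ^ d * N ^ (-c) := by
      have h6 : (0 : ℝ) < C3 * N ^ d := by positivity
      have h7 := h2.trans h3
      rw [← div_eq_mul_inv, div_le_iff₀ h6] at h7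
      linarith
    have hcc : (Fintype.card ι : ℝ) = (Badᶜ.card : ℝ) + Bad.card := by
      rw [Finset.card_compl, Nat.cast_sub (Finset.card_le_univ _)]
      ring
    rw [hcc]
    have h5' : (Badᶜ.card : ℝ) + Bad.card ≤ (Badᶜ.card : ℝ) + C3 * N ^ d * N ^ (-c) := by linarith
    refine h5'.trans ?_
    have h6 : N ^ ((d : ℝ) - c) = N ^ d * N ^ (-c) := by
      rw [sub_eq_add_neg, Real.rpow_add hN0, Real.rpow_natCast]
    rw [h6, mul_assoc]
    have h7 : 0 ≤ N ^ d * N ^ (-c) := by positivity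
    have h8 : 0 < C0 * (b : ℝ) ^ ε * C2 := by positivity
    nlinarith
  · intro a g hg P hP
    have hN2 : (0 : ℝ) < N ^ 2 := by positivity
    set g' : (Fin (d + 1) → ℝ) → ℝ≥0∞ := fun x => g (WithLp.toLp 2 fun i => N ^ 2 * x i) with hg'
    have hmp := PiLp.volume_preserving_toLp (Fin (d + 1))
    have hg'm : Measurable g' := by
      apply hg.comp
      apply hmp.measurable.comp
      fun_prop
    have hg'y : ∀ y : Space (d + 1), g' (WithLp.ofLp y) = g (N ^ 2 • y) := by
      intro y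
      simp only [hg']
      congr 1
    have hshape : ∀ k ≤ M, (Set.range (shp g' b k)).encard ≤ P := by
      intro k hk
      refine le_trans (le_of_eq ?_) (hP k ?_)
      · congr 1
      · refine le_trans ?_ hM2
        gcongr
        exact hbr1.le
    set G : ℝ≥0∞ := (∫⁻ y, g y ^ (d + 1)) ^ (1 / ((d : ℝ) + 1)) with hG
    have hnorm : (∫⁻ y, g' y ^ (d + 1)) ^ (1 / ((d : ℝ) + 1)) = ENNReal.ofReal ((N ^ 2)⁻¹) * G := by
      have h1 : ∫⁻ y, g' y ^ (d + 1) = ∫⁻ y : Space (d + 1), g (N ^ 2 • y) ^ (d + 1) := by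
        have h2 := (PiLp.volume_preserving_ofLp (Fin (d + 1))).lintegral_comp
          (f := fun x => g' x ^ (d + 1)) (hg'm.pow_const _)
        rw [← h2]
        simp only [hg'y]
      have h3 := lintegral_scale (n := d + 1) hN2 (hg.pow_const (d + 1))
      have h4 : ∫⁻ y, g' y ^ (d + 1) =
          ENNReal.ofReal (((N ^ 2) ^ (d + 1))⁻¹) * ∫⁻ y, g y ^ (d + 1) := by
        rw [h1, h3, ← mul_assoc, ← ENNReal.ofReal_mul (by positivity),
          inv_mul_cancel₀ (by positivity), ENNReal.ofReal_one, one_mul]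
      rw [h4, ENNReal.mul_rpow_of_nonneg _ _ (by positivity),
        ENNReal.ofReal_rpow_of_nonneg (by positivity) (by positivity)]
      congr 2
      rw [← inv_pow, ← Real.rpow_natCast, ← Real.rpow_mul (by positivity)]
      have : ((d + 1 : ℕ) : ℝ) * (1 / ((d : ℝ) + 1)) = 1 := by
        push_cast
        field_simp
      rw [this, Real.rpow_one]
    have hone : ∀ i ∈ Badᶜ, ∫⁻ y in box N (nor (ω i)) (f i) (a i), g y ≤
        ENNReal.ofReal (C0 * (b : ℝ) ^ ε * N ^ ε) * (P : ℝ≥0∞) ^ Q * (ENNReal.ofReal (N ^ d) * G) := by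
      intro i hi
      have hi' : ¬ ball (v i) ρ ⊆ B := by
        intro h1
        rw [Finset.mem_compl] at hi
        exact hi (by rw [hBad, Finset.mem_filter]; exact ⟨Finset.mem_univ _, h1⟩)
      obtain ⟨v', hv'1, hv'2⟩ := Set.not_subset.1 hi'
      have hx1 : ∀ j, |ω i j| ≤ 1 := by
        intro j
        have := PiLp.norm_apply_le (ω i) j
        rw [Real.norm_eq_abs] at this
        exact this.trans (hω i)
      have hvv : ∀ j, |v' j - (-2 * ω i j)| ≤ 1 / N := by
        intro j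
        have h1 : dist (v' j) (v i j) ≤ dist v' (v i) := dist_le_pi_dist _ _ j
        rw [mem_ball] at hv'1
        rw [Real.dist_eq] at h1
        simp only [hv] at h1 hv'1
        linarith
      have hf' := hf i
      rw [nor_eq] at hf'
      have h1 := hmain g' hg'm P hshape N hN (by
        apply one_div_le_one_div_of_le hN0 hM1) (WithLp.ofLp (ω i)) v' hx1 hvv hv'2 (f i) hf'
        ((N ^ 2)⁻¹ • a i)
      -- scaling
      have h2 : ∫⁻ y in box N (nor (ω i)) (f i) (a i), g y =
          ENNReal.ofReal ((N ^ 2) ^ (d + 1)) *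
          ∫⁻ y in bx (1 / 2) (1 / (2 * N)) (nrm (WithLp.ofLp (ω i))) (f i) ((N ^ 2)⁻¹ • a i),
            g' (WithLp.ofLp y) := by
        have hbm : MeasurableSet (box N (nor (ω i)) (f i) (a i)) := by
          have := measurableSet_bx (N ^ 2 / 2) (N / 2) (nor (ω i)) (f i) (a i)
          exact this
        rw [← lintegral_indicator hbm, lintegral_scale hN2 (hg.indicator hbm),
          ← lintegral_indicator (measurableSet_bx _ _ _ _ _)]
        congr 2
        funext y
        have h3 : (N ^ 2 • y ∈ box N (nor (ω i)) (f i) (a i)) ↔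
            y ∈ bx (1 / 2) (1 / (2 * N)) (nrm (WithLp.ofLp (ω i))) (f i) ((N ^ 2)⁻¹ • a i) := by
          have h4 : N ^ 2 • y - a i = N ^ 2 • (y - (N ^ 2)⁻¹ • a i) := by
            rw [smul_sub, smul_smul, mul_inv_cancel₀ hN2.ne', one_smul]
          simp only [box, bx, mem_ofPred_eq, h4, inner_smul_right, abs_mul, abs_of_pos hN2, nor_eq]
          constructor
          · rintro ⟨h5, h6⟩
            refine ⟨?_, fun j => ?_⟩
            · rw [← mul_le_mul_iff_right₀ hN2]
              linarith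
            · have h7 := h6 j
              rw [← mul_le_mul_iff_right₀ hN2]
              have h8 : N ^ 2 * (1 / (2 * N)) = N / 2 := by field_simp
              linarith
          · rintro ⟨h5, h6⟩
            refine ⟨?_, fun j => ?_⟩
            · rw [← mul_le_mul_iff_right₀ hN2] at h5
              linarith
            · have h7 := h6 j
              rw [← mul_le_mul_iff_right₀ hN2] at h7
              have h8 : N ^ 2 * (1 / (2 * N)) = N / 2 := by field_simp
              linarith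
        by_cases hy : y ∈ bx (1 / 2) (1 / (2 * N)) (nrm (WithLp.ofLp (ω i))) (f i) ((N ^ 2)⁻¹ • a i)
        · rw [Set.indicator_of_mem hy, Set.indicator_of_mem (h3.2 hy), hg'y]
        · rw [Set.indicator_of_notMem hy, Set.indicator_of_notMem (fun h => hy (h3.1 h))]
      rw [h2]
      rw [hnorm] at h1
      calc ENNReal.ofReal ((N ^ 2) ^ (d + 1)) *
            ∫⁻ y in bx (1 / 2) (1 / (2 * N)) (nrm (WithLp.ofLp (ω i))) (f i) ((N ^ 2)⁻¹ • a i),
              g' (WithLp.ofLp y)
          ≤ ENNReal.ofReal ((N ^ 2) ^ (d + 1)) * (ENNReal.ofReal (C0 * (b : ℝ) ^ (ε * M)) *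
            (P : ℝ≥0∞) ^ Q * (ENNReal.ofReal ((1 / N) ^ d) * (ENNReal.ofReal ((N ^ 2)⁻¹) * G))) := by
            gcongr
        _ = ENNReal.ofReal (C0 * (b : ℝ) ^ (ε * M)) * (P : ℝ≥0∞) ^ Q *
            ((ENNReal.ofReal ((N ^ 2) ^ (d + 1)) * (ENNReal.ofReal ((1 / N) ^ d) *
              ENNReal.ofReal ((N ^ 2)⁻¹))) * G) := by ring
        _ = ENNReal.ofReal (C0 * (b : ℝ) ^ (ε * M)) * (P : ℝ≥0∞) ^ Q *
            (ENNReal.ofReal (N ^ d) * G) := by
            congr 3
            rw [← ENNReal.ofReal_mul (by positivity), ← ENNReal.ofReal_mul (by positivity)]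
            congr 1
            rw [one_div, inv_pow, pow_succ]
            have : (N ^ 2) ^ d = N ^ d * N ^ d := by rw [← pow_mul, ← pow_add]; ring_nf
            rw [this]
            field_simp
        _ ≤ _ := by
            refine mul_le_mul' (mul_le_mul' (ENNReal.ofReal_le_ofReal ?_) le_rfl) le_rfl
            rw [mul_assoc]
            refine mul_le_mul_of_nonneg_left ?_ hC0.le
            have h9 : (b : ℝ) ^ (ε * M) = ((b : ℝ) ^ M) ^ ε := by
              rw [← Real.rpow_natCast, ← Real.rpow_mul hbr.le]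
              ring_nf
            rw [h9, ← Real.mul_rpow hbr.le hN0.le]
            exact Real.rpow_le_rpow hbM.le hM2 hε.le
    have hcd := hcard N hN ι σ ω f hcaps'
    set X := eLpNorm (boxSum N ω f 0) (ENNReal.ofReal (((d : ℝ) + 1) / d)) volume with hX
    calc ∑ i ∈ Badᶜ, ∫⁻ y in box N (nor (ω i)) (f i) (a i), g y
        ≤ ∑ i ∈ Badᶜ, ENNReal.ofReal (C0 * (b : ℝ) ^ ε * N ^ ε) * (P : ℝ≥0∞) ^ Q *
          (ENNReal.ofReal (N ^ d) * G) := Finset.sum_le_sum hone
      _ = (Badᶜ.card : ℝ≥0∞) * (ENNReal.ofReal (C0 * (b : ℝ) ^ ε * N ^ ε) * (P : ℝ≥0∞) ^ Q *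
          (ENNReal.ofReal (N ^ d) * G)) := by rw [Finset.sum_const, nsmul_eq_mul]
      _ ≤ (Fintype.card ι : ℝ≥0∞) * (ENNReal.ofReal (C0 * (b : ℝ) ^ ε * N ^ ε) * (P : ℝ≥0∞) ^ Q *
          (ENNReal.ofReal (N ^ d) * G)) := by
          gcongr
          exact Finset.card_le_univ _
      _ = ENNReal.ofReal (C0 * (b : ℝ) ^ ε * N ^ ε) * (P : ℝ≥0∞) ^ Q *
          ((Fintype.card ι : ℝ≥0∞) * ENNReal.ofReal (N ^ d)) * G := by ring
      _ ≤ ENNReal.ofReal (C0 * (b : ℝ) ^ ε * N ^ ε) * (P : ℝ≥0∞) ^ Q *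
          (ENNReal.ofReal C2 * X) * G := by gcongr
      _ = ENNReal.ofReal (C0 * (b : ℝ) ^ ε * C2 * N ^ ε) * (P : ℝ≥0∞) ^ Q * X * G := by
          have : ENNReal.ofReal (C0 * (b : ℝ) ^ ε * C2 * N ^ ε) =
              ENNReal.ofReal (C0 * (b : ℝ) ^ ε * N ^ ε) * ENNReal.ofReal C2 := by
            rw [← ENNReal.ofReal_mul (by positivity)]
            congr 1
            ring
          rw [this]
          ring
      _ ≤ _ := by
          refine mul_le_mul' (mul_le_mul' (mul_le_mul' (ENNReal.ofReal_le_ofReal ?_) le_rfl) le_rfl) le_rfl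
          have h1 : 0 ≤ C3 * N ^ ε := by positivity
          nlinarith

end Pool.Agent.Results.MP_ac5134_an.FewShapes
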