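import Pool.Agent.V11222.KM.Box3

/-!
# The Kakeya inequality in tube form tested against functions with order closed superlevel sets

`P` is the paraboloid `{(|x|², x)}`, `|x| ≤ 1`, in `ℝ^(d+1)` (the first coordinate is the vertical
one).  The box dual to the cap at `x` is `box N (nor x) f 0`: its long side `N²` is in the direction of
the unit normal `nor x = (1, -2x)/√(1+4|x|²)` and its other sides `N` are in the directions of an
orthonormal frame `f` of the orthogonal complement.

By duality the inequality of the problem at the exponent `p' = p / (p - 1)` says that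
`∫ (Σ T_θ) g ≤ C N^ε ‖Σ T_{θ,0}‖_{p'} ‖g‖_p` for all `g ≥ 0`.  It is proved here without any loss in
`N`, for all translates, for one finite exponent `p` which depends only on the dimension and for all
functions `g` whose superlevel sets are order closed.

An *order operation* is a function `h : ℝ^m → ℝ` which commutes with all nondecreasing maps
`ℝ → ℝ`, for instance the minimum, the maximum or the median. It acts on the points of `ℝ^n`
through the coordinates with respect to a basis. A set `S ⊆ ℝ^n` is *order closed at the scale `r`*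
if for every `x ∈ S` there is an order operation `h`, not a projection and depending on `x`, such
that `h (y_1, …, y_m) ∈ S` for all `y_1, …, y_m ∈ S` at distance at most `r` from `x`.
-/

set_option autoImplicit false

open MeasureTheory Set Metric
open scoped ENNReal

namespace Pool.Agent.Results.MP_ac5134_an.OrderClosedTests

/-- Euclidean space `ℝ^n`. -/
abbrev Space (n : ℕ) : Type := EuclideanSpace ℝ (Fin n)

/-- The unit normal `(1, -2x)/√(1+4|x|²)` of the paraboloid at the point `(|x|², x)`. -/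
noncomputable def nor {d : ℕ} (x : Space d) : Space (d + 1) :=
  (√(1 + 4 * ‖x‖ ^ 2))⁻¹ • WithLp.toLp 2 (Fin.cons 1 (fun j => -2 * x j) : Fin (d + 1) → ℝ)

/-- The box with centre `a`, side `N²` in the direction `e` and sides `N` in the directions `f j`. -/
def box {d : ℕ} (N : ℝ) (e : Space (d + 1)) (f : Fin d → Space (d + 1)) (a : Space (d + 1)) :
    Set (Space (d + 1)) :=
  {y | |inner ℝ e (y - a)| ≤ N ^ 2 / 2 ∧ ∀ j, |inner ℝ (f j) (y - a)| ≤ N / 2}

/-- The caps have centres `ω i` in the closed unit ball, which are `σ/N`-separated, and `f i` is an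
orthonormal frame of the orthogonal complement of the normal at `ω i`. -/
def Caps {d : ℕ} {ι : Type} (σ N : ℝ) (ω : ι → Space d) (f : ι → Fin d → Space (d + 1)) : Prop :=
  (∀ i, ‖ω i‖ ≤ 1) ∧ (∀ i j, i ≠ j → σ / N ≤ ‖ω i - ω j‖) ∧
    ∀ i, Orthonormal ℝ (Fin.cons (nor (ω i)) (f i) : Fin (d + 1) → Space (d + 1))

/-- The sum of the indicators of the boxes of the caps with centres `a i`. -/
noncomputable def boxSum {d : ℕ} {ι : Type} [Fintype ι] (N : ℝ) (ω : ι → Space d)
    (f : ι → Fin d → Space (d + 1)) (a : ι → Space (d + 1)) (y : Space (d + 1)) : ℝ :=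
  ∑ i, (box N (nor (ω i)) (f i) (a i)).indicator (fun _ => (1 : ℝ)) y

/-- An order operation: `h : ℝ^m → ℝ` commutes with all nondecreasing maps `φ : ℝ → ℝ`. -/
def OrderOp {m : ℕ} (h : (Fin m → ℝ) → ℝ) : Prop :=
  ∀ φ : ℝ → ℝ, Monotone φ → ∀ x : Fin m → ℝ, h (fun l => φ (x l)) = φ (h x)

/-- `h` is not a projection `(x_1, …, x_m) ↦ x_j`. -/
def Nontrivial {m : ℕ} (h : (Fin m → ℝ) → ℝ) : Prop := ¬ ∃ j, ∀ x, h x = x j

/-- `h` applied to the coordinates with respect to the basis `b` of the points `x_1, …, x_m`. -/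
noncomputable def app {n m : ℕ} (b : Module.Basis (Fin n) ℝ (Space n)) (h : (Fin m → ℝ) → ℝ)
    (x : Fin m → Space n) : Space n :=
  ∑ i, h (fun l => b.repr (x l) i) • b i

/-- For every `x ∈ S` there is an order operation `h`, not a projection, such that
`h (y_1, …, y_m) ∈ S` for all `y_1, …, y_m ∈ S` at distance at most `r` from `x`. -/
def OrderClosed {n : ℕ} (b : Module.Basis (Fin n) ℝ (Space n)) (r : ℝ) (S : Set (Space n)) : Prop :=
  ∀ x ∈ S, ∃ (m : ℕ) (h : (Fin m → ℝ) → ℝ), OrderOp h ∧ Nontrivial h ∧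
    ∀ y : Fin m → Space n, (∀ l, y l ∈ S ∧ ‖y l - x‖ ≤ r) → app b h y ∈ S

/-- **Main result.** -/
theorem result (d : ℕ) : ∃ p : ℝ, 3 ≤ p ∧
    ∀ (b : Module.Basis (Fin (d + 1)) ℝ (Space (d + 1))) (σ κ : ℝ), 0 < σ → 0 < κ →
    ∃ K : ℝ, 0 < K ∧ ∀ N R r : ℝ, 1 ≤ N → 1 ≤ R → 0 < r → r ≤ 1 →
    ∀ (ι : Type) [Fintype ι] (ω : ι → Space d) (f : ι → Fin d → Space (d + 1)), Caps σ N ω f →
      κ * N ^ d ≤ Fintype.card ι →
      ∀ (a : ι → Space (d + 1)) (g : Space (d + 1) → ℝ), Measurable g →
        (∀ x, R * N ^ 2 < ‖x‖ → g x = 0) →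
        (∀ s : ℝ, 0 < s → OrderClosed b (r * N ^ 2) {x | s < |g x|}) →
        ∑ i, ∫⁻ y in box N (nor (ω i)) (f i) (a i), ‖g y‖ₑ ≤
          ENNReal.ofReal (K * (R / r)) *
            eLpNorm (boxSum N ω f 0) (ENNReal.ofReal (p / (p - 1))) volume *
            (∫⁻ y, ‖g y‖ₑ ^ p) ^ (1 / p) := by
  obtain ⟨p, hp, hmain⟩ := V11222.KM.box_main d
  refine ⟨p, hp, fun b σ κ hσ hκ => ?_⟩
  obtain ⟨K, hK, hmain⟩ := hmain b σ κ hσ hκ
  refine ⟨K, hK, ?_⟩
  intro N R r hN hR hr hr1 ι _ ω f hcaps hcard a g hg hsupp hlev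
  obtain ⟨h1, h2, h3⟩ := hcaps
  exact hmain N R r hN hR hr hr1 ι ω f h1 h2 h3 hcard a g hg hsupp hlev

end Pool.Agent.Results.MP_ac5134_an.OrderClosedTests
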